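import Pool.Agent.H711R4.Main

set_option autoImplicit false

namespace Pool.Agent.Results.MP_bc764f_gt.FourSixFails

open FourSix

/-- **Donaldson's four-six equivalence fails, for every area form on the two-sphere.**
The two-sphere carries a symplectic form, and there is a closed connected symplectic four-manifold
`A = (X, ω)` such that, with `A.neg = (X, -ω)` (so the two four-manifolds are diffeomorphic, and
homeomorphic), for all symplectic forms `σ`, `σ'` on the two-sphere (in particular for `σ' = σ`)
the symplectic six-manifolds `(X × S², ω × σ)` and `(X × S², -ω × σ')` are not deformation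
equivalent: there is no diffeomorphism `φ` of `X × S²` such that `ω × σ` and `φ^* (-ω × σ')` are
joined by a continuous path of symplectic forms (continuity is only asked in the `C⁰` sense). -/
theorem result : Nonempty Area ∧ ∃ A : Symp4, ConnectedSpace A.X ∧ Diffeo A A.neg ∧
    ∀ σ σ' : Area, TimesSymplectic A σ ∧ TimesSymplectic A.neg σ' ∧
      ¬ TimesDefEquiv A A.neg σ σ' :=
  H711R4.main

end Pool.Agent.Results.MP_bc764f_gt.FourSixFails
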